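import Pool.Agent.V11231.VCF.Host

/-! The lower bound with explicit parameters. -/

set_option autoImplicit false
set_option linter.unusedSectionVars false
set_option linter.unusedVariables false

namespace Pool.Agent.V11231.VCF

open Finset Pool.Agent.V11231.FLT
open Pool.Agent.W896.FD (bits)
open H630VC (IsCover classGraph touchGraph graphInputs FProg combos wires engine2)

variable {W : Type} [Fintype W] [DecidableEq W] {n t D : ℕ}

open Classical in
theorem core (φ : Fin n × Fin t ↪ W) (U : Finset W) (hU : ∀ p, φ p ∉ U) (m L : ℕ) (σ τ : ℝ)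
    (hL : 1 ≤ L) (hσ : 1 ≤ σ) (hτ : 1 ≤ τ) (hD : 0 < D)
    (hpar : 16 * 10 ^ 5 * (σ * τ) * L ^ 3 * (Nat.log 2 n + 1) ≤ Real.sqrt n)
    (hb : (n : ℝ) ^ 2 * 4 ^ t * (1 - 1 / (D : ℝ)) ^ (m * m) ≤ 1 / 20)
    {R : Type} [Fintype R] [Nonempty R] (C : R → LiteralCircuit (Sym2 W)) (s : ℕ)
    (hs : ∀ ρ, (C ρ).s ≤ s) (hsz : 8 * (3 * s + 4) ≤ 2 ^ L)
    (h1 : ∀ G : SimpleGraph W, (∀ a ∈ U, ∀ b, a ≠ b → G.Adj a b) →
      (∀ K, IsCover G K → (U.card : ℝ) + n * t ≤ K.card + n * m + n / (8 * σ) * t + 1) →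
      4 / 5 ≤ faultyAcceptance C D (bits G))
    (h2 : ∀ G : SimpleGraph W, (∀ a ∈ U, ∀ b, a ≠ b → G.Adj a b) →
      (∃ K, IsCover G K ∧ (K.card : ℝ) ≤ U.card + n / (4 * τ) * t) →
      acceptance C (bits G) ≤ 1 / 4) : False := by
  have hn : 0 < n := by
    rcases Nat.eq_zero_or_pos n with h | h
    · exfalso
      rw [h] at hpar
      have hLr : (1 : ℝ) ≤ L := by exact_mod_cast hL
      have h3 : (0 : ℝ) < 16 * 10 ^ 5 * (σ * τ) * L ^ 3 * (Nat.log 2 0 + 1) := by positivity
      rw [Nat.cast_zero, Real.sqrt_zero] at hpar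
      linarith
    · exact h
  have hF : Nonempty (Fin D) := ⟨⟨0, hD⟩⟩
  have huniv : ∀ (f : Sym2 W → Fin D) (H : SimpleGraph (Fin n)), ∀ a ∈ U, ∀ b, a ≠ b →
      (hostGraph φ U (fun e => (f e : ℕ) = 0) H).Adj a b :=
    fun f H a ha b hab => ⟨hab, Or.inl ha⟩
  have hT : ∀ ρ, (toRC (C ρ)).T = ∅ := fun _ => rfl
  have hex : ∀ ω : R × (Sym2 W → Fin D), ∃ (l : List (SimpleGraph (Fin n) → ℝ))
      (g : SimpleGraph (Fin n) → ℝ), FProg (graphInputs (Fin n)) l [] ∧
      l.length ≤ 3 * s + 2 ∧ g ∈ l ∧ ∀ H, 1 ≤ g H ↔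
        (C ω.1).Accepts (mix (pos φ H) (bas U) ω.2) (flt ω.2) := by
    intro ω
    obtain ⟨σ', c, hσ'⟩ := host_lsub φ U hU ω.2
    obtain ⟨C', hsize, -, hT', hacc⟩ :=
      Pool.Agent.Y630.TF.subst (toRC (C ω.1)) ((⟨0, hn⟩, ⟨0, hn⟩) : Fin n × Fin n) σ' c
    have hT2 : C'.T = ∅ := hT'.mpr (hT ω.1)
    obtain ⟨L', hL', hlen, g, hg, hval⟩ := Pool.Agent.Y630.TF.rc_prog (graphInputs (Fin n)) encG
      (fun x => Or.inl ⟨x.1, x.2, by
        funext H
        unfold Pool.Agent.H560R2.bit encG H630VC.edgeBit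
        by_cases h : H.Adj x.1 x.2
        · simp [h]
        · simp [h]⟩)
      (fun c => Or.inr ⟨c, rfl⟩) C' hT2
    refine ⟨L', g, hL', ?_, hg, fun H => ?_⟩
    · have h3 : C'.S = (toRC (C ω.1)).S := by
        have h4 : C'.size = C'.S := by
          unfold Pool.Agent.W969.MC.RC.size
          rw [hT2, Finset.sum_empty, Nat.add_zero]
        have h5 : (toRC (C ω.1)).size = (toRC (C ω.1)).S := by
          unfold Pool.Agent.W969.MC.RC.size
          rw [hT ω.1, Finset.sum_empty, Nat.add_zero]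
        rw [← h4, ← h5, hsize]
      have h6 : (toRC (C ω.1)).S ≤ s := hs ω.1
      rw [h3] at hlen
      omega
    · rw [hval H, hacc, ← hσ' H, ← lit_eq]
      exact toRC_acc _ _ _
  choose l g hprog hlen hmem hval using hex
  refine engine2 n L 1 σ τ hL le_rfl hσ hτ (by simpa using hpar) l (fun _ => []) g hprog hmem
    (fun r => le_of_eq (by simp [combos])) (fun r => ?_) 1 ?_ ?_
  · have h3 := hlen r
    have h4 : wires ([] : List (List ((SimpleGraph (Fin n) → ℝ) × ℝ))) = 0 := rfl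
    rw [h4]
    omega
  · intro H A β hA hH
    have h3 := thick_accept hD C (pos φ H) (bas U) (fun f => Expands φ m f)
      (card_not_expands φ m hD hb) (fun f hf => by
        rw [bits_host φ U hU]
        refine h1 _ (huniv f H) fun K hK => ?_
        have h4 := cover_host φ U hU m hf β hH K hK
        have h5 : ((U.card + n * t : ℕ) : ℝ) ≤ ((K.card + n * m + A * t + 1 : ℕ) : ℝ) := by
          exact_mod_cast h4
        push_cast at h5
        have h6 : (A : ℝ) * t ≤ n / (8 * σ) * t :=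
          mul_le_mul_of_nonneg_right hA (Nat.cast_nonneg _)
        linarith)
    have h7 : (univ.filter fun r => 1 ≤ g r H) = univ.filter fun v : R × (Sym2 W → Fin D) =>
        (C v.1).Accepts (mix (pos φ H) (bas U) v.2) (flt v.2) := by
      ext r
      simp [hval]
    rw [h7]
    have h8 : (3 : ℝ) * (Fintype.card (R × (Sym2 W → Fin D)) : ℝ) ≤
        4 * ((univ.filter fun v : R × (Sym2 W → Fin D) =>
        (C v.1).Accepts (mix (pos φ H) (bas U) v.2) (flt v.2)).card : ℝ) := by linarith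
    exact_mod_cast h8
  · intro T hT'
    have h3 := thick_reject C (pos φ (touchGraph T)) (bas U) (fun f : Sym2 W → Fin D => by
      rw [bits_host φ U hU]
      refine h2 _ (huniv f _) ⟨_, (host_touch φ U _ T).1, ?_⟩
      have h5 : (((U ∪ (T ×ˢ (univ : Finset (Fin t))).map φ).card : ℕ) : ℝ) ≤
          ((U.card + T.card * t : ℕ) : ℝ) := by
        exact_mod_cast (host_touch φ U (fun _ => True) T).2
      push_cast at h5
      have h6 : (T.card : ℝ) * t ≤ n / (4 * τ) * t :=
        mul_le_mul_of_nonneg_right hT' (Nat.cast_nonneg _)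
      linarith)
    have h7 : (univ.filter fun r => 1 ≤ g r (touchGraph T)) =
        univ.filter fun v : R × (Sym2 W → Fin D) =>
        (C v.1).Accepts (mix (pos φ (touchGraph T)) (bas U) v.2) (flt v.2) := by
      ext r
      simp [hval]
    rw [h7]
    have h8 : (4 : ℝ) * ((univ.filter fun v : R × (Sym2 W → Fin D) =>
        (C v.1).Accepts (mix (pos φ (touchGraph T)) (bas U) v.2) (flt v.2)).card : ℝ) ≤
        (Fintype.card (R × (Sym2 W → Fin D)) : ℝ) := by linarith
    exact_mod_cast h8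

end Pool.Agent.V11231.VCF
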