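import Pool.Agent.V11231.VCF.Params

/-! Vertex cover and circuits with unreliable negations. -/

set_option autoImplicit false
set_option linter.unusedSectionVars false
set_option linter.unusedVariables false

namespace Pool.Agent.V11231.VCF

open Finset Pool.Agent.V11231.FLT
open Pool.Agent.W896.FD (bits)
open H630VC (IsCover)

/-- the classes in the set of the numbers below `N` -/
def cls {n t N : ℕ} (h : n * t ≤ N) : Fin n × Fin t ↪ Fin N where
  toFun p := ⟨(finProdFinEquiv p : Fin (n * t)), lt_of_lt_of_le (finProdFinEquiv p).isLt h⟩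
  inj' p q hpq := by
    have h1 : (finProdFinEquiv p : Fin (n * t)) = finProdFinEquiv q := Fin.ext (Fin.mk.inj hpq)
    exact finProdFinEquiv.injective h1

/-- all graphs -/
theorem all_graphs (ε η : ℝ) (hε : 0 < ε) (hε1 : ε ≤ 1) (hη : 0 < η) (hη1 : η ≤ 1) :
    ∃ N₀ : ℕ, ∀ N : ℕ, N₀ ≤ N → ∀ D : ℕ, 1 ≤ D → ∀ ρ : ℝ, 1 ≤ ρ →
      ρ ^ 2 * D ≤ (N : ℝ) ^ (1 - η) →
      ∀ (R : Type) [Fintype R] [Nonempty R] (C : R → LiteralCircuit (Sym2 (Fin N))),
      (∀ G : SimpleGraph (Fin N), (∀ K : Finset (Fin N), IsCover G K → (1 - ε) * N ≤ K.card) →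
        4 / 5 ≤ faultyAcceptance C D (bits G)) →
      (∀ G : SimpleGraph (Fin N), (∃ K : Finset (Fin N), IsCover G K ∧ (K.card : ℝ) ≤ N / ρ) →
        acceptance C (bits G) ≤ 1 / 4) →
      ∃ r, (2 : ℝ) ^ ((N : ℝ) ^ (η / 7)) ≤ (C r).s := by
  obtain ⟨N₀, hN₀⟩ := params ε η hε hε1 hη hη1
  refine ⟨N₀, fun N hN D hD ρ hρ hDρ R _ _ C h1 h2 => ?_⟩
  obtain ⟨n, t, m, L, hL, hnt, hN1, hnm, hpar, hb, hsz, hone⟩ := hN₀ N hN D hD ρ hρ hDρ
  by_contra hlt
  push Not at hlt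
  have hn0 : (0 : ℝ) ≤ (n : ℝ) * t := by positivity
  have hntr : (n : ℝ) * t ≤ N := by exact_mod_cast hnt
  have hNr : (0 : ℝ) ≤ N := Nat.cast_nonneg _
  have hσ : 1 ≤ 1 / ε := by
    rw [le_div_iff₀ hε]
    linarith
  have hτ : 1 ≤ ρ / ε := by
    rw [le_div_iff₀ hε]
    linarith
  -- the largest circuit
  obtain ⟨r₀, -, hr₀⟩ := Finset.exists_max_image (univ : Finset R) (fun r => (C r).s)
    Finset.univ_nonempty
  refine core (cls hnt) ∅ (fun _ => Finset.notMem_empty _) m L (1 / ε) (ρ / ε) hL hσ hτ hD hpar hb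
    C (C r₀).s (fun r => hr₀ r (Finset.mem_univ _)) (hsz _ (hlt r₀)) ?_ ?_
  · intro G _ hG
    refine h1 G fun K hK => ?_
    have h3 := hG K hK
    rw [Finset.card_empty, Nat.cast_zero] at h3
    have h4 : (n : ℝ) / (8 * (1 / ε)) * t = ε / 8 * (n * t) := by
      field_simp
    rw [h4] at h3
    have h5 : ε / 8 * ((n : ℝ) * t) ≤ ε / 8 * N := mul_le_mul_of_nonneg_left hntr (by positivity)
    linarith
  · rintro G _ ⟨K, hK, hKc⟩
    refine h2 G ⟨K, hK, hKc.trans ?_⟩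
    rw [Finset.card_empty, Nat.cast_zero, zero_add]
    have hρ0 : 0 < ρ := by linarith
    have h4 : (n : ℝ) / (4 * (ρ / ε)) * t = (ε / 4) * ((n * t) / ρ) := by
      field_simp
    rw [h4]
    have h5 : (n : ℝ) * t / ρ ≤ N / ρ := div_le_div_of_nonneg_right hntr hρ0.le
    have h6 : 0 ≤ (n : ℝ) * t / ρ := by positivity
    have h7 : ε / 4 * ((n : ℝ) * t / ρ) ≤ 1 * ((n : ℝ) * t / ρ) :=
      mul_le_mul_of_nonneg_right (by linarith) h6
    linarith

open Classical in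
/-- graphs with a perfect matching -/
theorem matched_graphs (ε η : ℝ) (hε : 0 < ε) (hε1 : ε ≤ 1) (hη : 0 < η) (hη1 : η ≤ 1) :
    ∃ N₀ : ℕ, ∀ N : ℕ, N₀ ≤ N → ∀ D : ℕ, 1 ≤ D → (D : ℝ) ≤ (N : ℝ) ^ (1 - η) →
      ∀ (R : Type) [Fintype R] [Nonempty R] (C : R → LiteralCircuit (Sym2 (Fin N ⊕ Fin N))),
      (∀ G : SimpleGraph (Fin N ⊕ Fin N), (∀ i, G.Adj (Sum.inl i) (Sum.inr i)) →
        (∀ K : Finset (Fin N ⊕ Fin N), IsCover G K → (2 - ε) * N ≤ K.card) →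
        4 / 5 ≤ faultyAcceptance C D (bits G)) →
      (∀ G : SimpleGraph (Fin N ⊕ Fin N), (∀ i, G.Adj (Sum.inl i) (Sum.inr i)) →
        (∃ K : Finset (Fin N ⊕ Fin N), IsCover G K ∧ (K.card : ℝ) ≤ (1 + ε) * N) →
        acceptance C (bits G) ≤ 1 / 4) →
      ∃ r, (2 : ℝ) ^ ((N : ℝ) ^ (η / 7)) ≤ (C r).s := by
  obtain ⟨N₀, hN₀⟩ := params ε η hε hε1 hη hη1
  refine ⟨N₀, fun N hN D hD hDρ R _ _ C h1 h2 => ?_⟩
  obtain ⟨n, t, m, L, hL, hnt, hN1, hnm, hpar, hb, hsz, hone⟩ :=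
    hN₀ N hN D hD 1 le_rfl (by rw [one_pow, one_mul]; exact hDρ)
  by_contra hlt
  push Not at hlt
  have hn0 : (0 : ℝ) ≤ (n : ℝ) * t := by positivity
  have hntr : (n : ℝ) * t ≤ N := by exact_mod_cast hnt
  have hNr : (0 : ℝ) ≤ N := Nat.cast_nonneg _
  have hσ : 1 ≤ 1 / ε := by
    rw [le_div_iff₀ hε]
    linarith
  set φ : Fin n × Fin t ↪ Fin N ⊕ Fin N := (cls hnt).trans Function.Embedding.inl with hφ
  set U : Finset (Fin N ⊕ Fin N) := univ \ univ.map φ with hU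
  have hφU : ∀ p, φ p ∉ U := by
    intro p hp
    rw [hU, Finset.mem_sdiff] at hp
    exact hp.2 (Finset.mem_map_of_mem _ (Finset.mem_univ _))
  have hUc : (U.card : ℝ) = 2 * N - n * t := by
    have h3 : U.card + n * t = N + N := by
      have h4 := Finset.card_sdiff_add_card_eq_card
        (Finset.subset_univ (univ.map φ : Finset (Fin N ⊕ Fin N)))
      rw [Finset.card_map, Finset.card_univ, Finset.card_univ, Fintype.card_prod,
        Fintype.card_sum, Fintype.card_fin, Fintype.card_fin, Fintype.card_fin] at h4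
      exact h4
    have h5 : ((U.card + n * t : ℕ) : ℝ) = ((N + N : ℕ) : ℝ) := by exact_mod_cast h3
    push_cast at h5
    linarith
  have hinr : ∀ i : Fin N, (Sum.inr i : Fin N ⊕ Fin N) ∈ U := by
    intro i
    rw [hU, Finset.mem_sdiff]
    refine ⟨Finset.mem_univ _, fun h => ?_⟩
    rw [Finset.mem_map] at h
    obtain ⟨p, _, hp⟩ := h
    rw [hφ] at hp
    simp at hp
  have hmat : ∀ G : SimpleGraph (Fin N ⊕ Fin N), (∀ a ∈ U, ∀ b, a ≠ b → G.Adj a b) →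
      ∀ i, G.Adj (Sum.inl i) (Sum.inr i) := fun G hG i =>
    (hG _ (hinr i) (Sum.inl i) (by simp)).symm
  obtain ⟨r₀, -, hr₀⟩ := Finset.exists_max_image (univ : Finset R) (fun r => (C r).s)
    Finset.univ_nonempty
  refine core φ U hφU m L (1 / ε) (1 / ε) hL hσ hσ hD hpar hb
    C (C r₀).s (fun r => hr₀ r (Finset.mem_univ _)) (hsz _ (hlt r₀)) ?_ ?_
  · intro G hG0 hG
    refine h1 G (hmat G hG0) fun K hK => ?_
    have h3 := hG K hK
    rw [hUc] at h3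
    have h4 : (n : ℝ) / (8 * (1 / ε)) * t = ε / 8 * (n * t) := by
      field_simp
    rw [h4] at h3
    have h5 : ε / 8 * ((n : ℝ) * t) ≤ ε / 8 * N := mul_le_mul_of_nonneg_left hntr (by positivity)
    linarith
  · rintro G hG0 ⟨K, hK, hKc⟩
    refine h2 G (hmat G hG0) ⟨K, hK, hKc.trans ?_⟩
    rw [hUc]
    have h4 : (n : ℝ) / (4 * (1 / ε)) * t = (ε / 4) * (n * t) := by
      field_simp
    rw [h4]
    have h5 : ε / 4 * ((n : ℝ) * t) ≤ ε / 4 * N := mul_le_mul_of_nonneg_left hntr (by positivity)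
    have h6 : 0 ≤ ε * (N : ℝ) := by positivity
    linarith

end Pool.Agent.V11231.VCF
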