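import Pool.Agent.V11231.VCF.Thick
import Pool.Agent.H630VC.Avg4
import Pool.Agent.W896.FD.Graph

/-! Graphs hidden in the faulty positions of a larger graph. -/

set_option autoImplicit false
set_option linter.unusedSectionVars false
set_option linter.unusedVariables false

namespace Pool.Agent.V11231.VCF

open Finset Pool.Agent.V11231.FLT
open Pool.Agent.W896.FD (bits)
open H630VC (IsCover classGraph touchGraph)

variable {W : Type} [Fintype W] [DecidableEq W] {n t D : ℕ}

/-- The vertices `u` of the small graph become the classes `φ (u, i)`; the pairs `e` between the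
classes of two adjacent vertices with `z e` are edges, and the vertices in `U` are joined to all
vertices. -/
def hostGraph (φ : Fin n × Fin t ↪ W) (U : Finset W) (z : Sym2 W → Prop)
    (H : SimpleGraph (Fin n)) : SimpleGraph W where
  Adj a b := a ≠ b ∧ (a ∈ U ∨ b ∈ U ∨ ∃ u i v j, a = φ (u, i) ∧ b = φ (v, j) ∧ H.Adj u v ∧ z s(a, b))
  symm := ⟨fun a b h => ⟨h.1.symm, by
    rcases h.2 with h2 | h2 | ⟨u, i, v, j, h3, h4, h5, h6⟩
    · exact Or.inr (Or.inl h2)
    · exact Or.inl h2
    · exact Or.inr (Or.inr ⟨v, j, u, i, h4, h3, h5.symm, by rwa [Sym2.eq_swap]⟩)⟩⟩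
  loopless := ⟨fun _ h => h.1 rfl⟩

/-- the positions between the classes of adjacent vertices -/
def pos (φ : Fin n × Fin t ↪ W) (H : SimpleGraph (Fin n)) : Set (Sym2 W) :=
  {e | ∃ u i v j, e = s(φ (u, i), φ (v, j)) ∧ H.Adj u v}

open Classical in
/-- the bits of the pairs with a vertex in `U` -/
noncomputable def bas (U : Finset W) : Sym2 W → Bool :=
  fun e => decide (¬ e.IsDiag ∧ ∃ a ∈ U, a ∈ e)

lemma bits_host (φ : Fin n × Fin t ↪ W) (U : Finset W) (hU : ∀ p, φ p ∉ U)
    (f : Sym2 W → Fin D) (H : SimpleGraph (Fin n)) :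
    mix (pos φ H) (bas U) f = bits (hostGraph φ U (fun e => (f e : ℕ) = 0) H) := by
  classical
  funext e
  induction e with
  | _ a b =>
  rw [Bool.eq_iff_iff, Pool.Agent.W896.FD.bits_true, SimpleGraph.mem_edgeSet]
  unfold mix
  by_cases he : s(a, b) ∈ pos φ H
  · rw [if_pos he, decide_eq_true_eq]
    obtain ⟨u, i, v, j, h1, h2⟩ := he
    have hne : φ (u, i) ≠ φ (v, j) := by
      intro h
      have := φ.injective h
      rw [Prod.mk.injEq] at this
      exact H.ne_of_adj h2 this.1
    constructor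
    · intro h3
      rcases Sym2.eq_iff.mp h1 with ⟨ha, hb⟩ | ⟨ha, hb⟩
      · exact ⟨by rw [ha, hb]; exact hne, Or.inr (Or.inr ⟨u, i, v, j, ha, hb, h2, h3⟩)⟩
      · exact ⟨by rw [ha, hb]; exact hne.symm, Or.inr (Or.inr ⟨v, j, u, i, ha, hb, h2.symm, h3⟩)⟩
    · rintro ⟨_, h3 | h3 | ⟨_, _, _, _, _, _, _, h3⟩⟩
      · rcases Sym2.eq_iff.mp h1 with ⟨ha, hb⟩ | ⟨ha, hb⟩
        · exact absurd h3 (ha ▸ hU _)
        · exact absurd h3 (ha ▸ hU _)
      · rcases Sym2.eq_iff.mp h1 with ⟨ha, hb⟩ | ⟨ha, hb⟩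
        · exact absurd h3 (hb ▸ hU _)
        · exact absurd h3 (hb ▸ hU _)
      · exact h3
  · rw [if_neg he]
    unfold bas
    rw [decide_eq_true_eq]
    constructor
    · rintro ⟨h1, c, hc, h2⟩
      refine ⟨fun h => h1 (by rw [Sym2.mk_isDiag_iff]; exact h), ?_⟩
      rcases Sym2.mem_iff.mp h2 with rfl | rfl
      · exact Or.inl hc
      · exact Or.inr (Or.inl hc)
    · rintro ⟨h1, h3 | h3 | ⟨u, i, v, j, h3, h4, h5, h6⟩⟩
      · exact ⟨fun h => h1 (by rwa [Sym2.mk_isDiag_iff] at h), a, h3, Sym2.mem_mk_left _ _⟩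
      · exact ⟨fun h => h1 (by rwa [Sym2.mk_isDiag_iff] at h), b, h3, Sym2.mem_mk_right _ _⟩
      · exact absurd ⟨u, i, v, j, by rw [h3, h4], h5⟩ he

open Classical in
/-- the bits of the small graph -/
noncomputable def encG (H : SimpleGraph (Fin n)) : Fin n × Fin n → Bool :=
  fun p => decide (H.Adj p.1 p.2)

open Classical in
/-- the literals are constants or bits of the small graph -/
lemma host_lsub (φ : Fin n × Fin t ↪ W) (U : Finset W) (hU : ∀ p, φ p ∉ U) (f : Sym2 W → Fin D) :
    ∃ (σ : Sym2 W × Bool → Option (Fin n × Fin n)) (c : Sym2 W × Bool → Bool),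
      ∀ H : SimpleGraph (Fin n), literals (mix (pos φ H) (bas U) f) (flt f) =
        Pool.Agent.Y630.TF.lsub σ c (encG H) := by
  set Q : Sym2 W × Bool → (Fin n × Fin t) × (Fin n × Fin t) → Prop := fun q p =>
    q.2 = true ∧ (f q.1 : ℕ) = 0 ∧ q.1 = s(φ p.1, φ p.2) with hQ
  set σ : Sym2 W × Bool → Option (Fin n × Fin n) := fun q =>
    if h : ∃ p, Q q p then some ((Classical.choose h).1.1, (Classical.choose h).2.1) else none
    with hσ
  have hpos : ∀ (H : SimpleGraph (Fin n)) (e : Sym2 W), e ∈ pos φ H → bas U e = false := by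
    rintro H e ⟨u, i, v, j, h1, -⟩
    unfold bas
    rw [decide_eq_false_iff_not]
    rintro ⟨-, a, ha, hae⟩
    rw [h1] at hae
    rcases Sym2.mem_iff.mp hae with rfl | rfl
    · exact hU _ ha
    · exact hU _ ha
  refine ⟨σ, fun q => if q.2 = true then bas U q.1 else
    if (f q.1 : ℕ) = 0 then false else !bas U q.1, fun H => ?_⟩
  funext q
  unfold Pool.Agent.Y630.TF.lsub
  by_cases hq : ∃ p, Q q p
  · have h1 : σ q = some ((Classical.choose hq).1.1, (Classical.choose hq).2.1) := dif_pos hq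
    have h2 := Classical.choose_spec hq
    rw [h1]
    simp only [Option.elim_some]
    set p := Classical.choose hq with hp
    obtain ⟨g1, g2, g3⟩ := h2
    unfold literals
    rw [if_pos g1]
    unfold mix encG
    by_cases hH : H.Adj p.1.1 p.2.1
    · have h3 : q.1 ∈ pos φ H := ⟨p.1.1, p.1.2, p.2.1, p.2.2, g3, hH⟩
      rw [if_pos h3]
      simp [hH, g2]
    · have h3 : q.1 ∉ pos φ H := by
        rintro ⟨u, i, v, j, h4, h5⟩
        rw [g3] at h4
        rcases Sym2.eq_iff.mp h4 with ⟨ha, hb⟩ | ⟨ha, hb⟩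
        · have e1 := φ.injective ha
          have e2 := φ.injective hb
          rw [e1, e2] at hH
          exact hH h5
        · have e1 := φ.injective ha
          have e2 := φ.injective hb
          rw [e1, e2] at hH
          exact hH h5.symm
      rw [if_neg h3]
      have h6 : bas U q.1 = false := by
        unfold bas
        rw [decide_eq_false_iff_not]
        rintro ⟨-, a, ha, hae⟩
        rw [g3] at hae
        rcases Sym2.mem_iff.mp hae with rfl | rfl
        · exact hU _ ha
        · exact hU _ ha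
      rw [h6]
      simp [hH]
  · have h1 : σ q = none := dif_neg hq
    rw [h1]
    simp only [Option.elim_none]
    unfold literals
    by_cases hb : q.2 = true
    · rw [if_pos hb, if_pos hb]
      unfold mix
      by_cases hp : q.1 ∈ pos φ H
      · rw [if_pos hp, hpos H q.1 hp]
        obtain ⟨u, i, v, j, h4, h5⟩ := hp
        have h6 : ¬ (f q.1 : ℕ) = 0 := fun h7 => hq ⟨((u, i), (v, j)), hb, h7, h4⟩
        simp [h6]
      · rw [if_neg hp]
    · rw [if_neg hb, if_neg hb]
      by_cases hf : (f q.1 : ℕ) = 0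
      · have h2 : q.1 ∈ flt f := hf
        rw [if_pos h2, if_pos hf]
      · have h2 : q.1 ∉ flt f := hf
        rw [if_neg h2, if_neg hf]
        unfold mix
        by_cases hp : q.1 ∈ pos φ H
        · rw [if_pos hp, hpos H q.1 hp]
          simp [hf]
        · rw [if_neg hp]

/-- Every two classes are joined everywhere by faulty positions. -/
def Expands (φ : Fin n × Fin t ↪ W) (m : ℕ) (f : Sym2 W → Fin D) : Prop :=
  ∀ u v : Fin n, u ≠ v → ∀ S S' : Finset (Fin t), S.card = m → S'.card = m →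
    ∃ i ∈ S, ∃ j ∈ S', (f s(φ (u, i), φ (v, j)) : ℕ) = 0

open Classical in
lemma card_not_expands (φ : Fin n × Fin t ↪ W) (m : ℕ) (hD : 0 < D)
    (hb : (n : ℝ) ^ 2 * 4 ^ t * (1 - 1 / (D : ℝ)) ^ (m * m) ≤ 1 / 20) :
    ((univ.filter fun f : Sym2 W → Fin D => ¬ Expands φ m f).card : ℝ) ≤
      1 / 20 * (D : ℝ) ^ Fintype.card (Sym2 W) := by
  have hDR : (0 : ℝ) < D := by exact_mod_cast hD
  have hD1 : (1 : ℝ) ≤ D := by exact_mod_cast hD
  set I : Finset ((Fin n × Fin n) × (Finset (Fin t) × Finset (Fin t))) :=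
    univ.filter fun q => q.1.1 ≠ q.1.2 ∧ q.2.1.card = m ∧ q.2.2.card = m with hI
  set B : (Fin n × Fin n) × (Finset (Fin t) × Finset (Fin t)) → Finset (Sym2 W) := fun q =>
    (q.2.1 ×ˢ q.2.2).image fun p => s(φ (q.1.1, p.1), φ (q.1.2, p.2)) with hB
  have hsub : (univ.filter fun f : Sym2 W → Fin D => ¬ Expands φ m f) ⊆
      I.biUnion fun q => univ.filter fun f : Sym2 W → Fin D => ∀ e ∈ B q, (f e : ℕ) ≠ 0 := by
    intro f hf
    rw [Finset.mem_filter] at hf
    have h1 := hf.2
    unfold Expands at h1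
    push Not at h1
    obtain ⟨u, v, huv, S, S', hS, hS', h2⟩ := h1
    rw [Finset.mem_biUnion]
    refine ⟨((u, v), (S, S')), ?_, ?_⟩
    · rw [hI, Finset.mem_filter]
      exact ⟨Finset.mem_univ _, huv, hS, hS'⟩
    · rw [Finset.mem_filter]
      refine ⟨Finset.mem_univ _, fun e he => ?_⟩
      rw [hB, Finset.mem_image] at he
      obtain ⟨p, hp, rfl⟩ := he
      rw [Finset.mem_product] at hp
      exact h2 p.1 hp.1 p.2 hp.2
  have hBcard : ∀ q ∈ I, (B q).card = m * m := by
    intro q hq
    rw [hI, Finset.mem_filter] at hq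
    obtain ⟨-, hne, h1, h2⟩ := hq
    rw [hB]
    rw [Finset.card_image_of_injOn, Finset.card_product, h1, h2]
    intro p _ p' _ hpp
    rcases Sym2.eq_iff.mp hpp with ⟨ha, hb⟩ | ⟨ha, hb⟩
    · have e1 := φ.injective ha
      have e2 := φ.injective hb
      rw [Prod.mk.injEq] at e1 e2
      exact Prod.ext e1.2 e2.2
    · have e1 := φ.injective ha
      rw [Prod.mk.injEq] at e1
      exact absurd e1.1 hne
  have hIcard : (I.card : ℝ) ≤ (n : ℝ) ^ 2 * 4 ^ t := by
    have h1 : I.card ≤ Fintype.card ((Fin n × Fin n) × (Finset (Fin t) × Finset (Fin t))) :=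
      Finset.card_le_univ _
    have h2 : Fintype.card ((Fin n × Fin n) × (Finset (Fin t) × Finset (Fin t))) =
        n ^ 2 * 4 ^ t := by
      rw [Fintype.card_prod, Fintype.card_prod, Fintype.card_prod, Fintype.card_fin,
        Fintype.card_finset, Fintype.card_fin]
      have h3 : (4 : ℕ) ^ t = 2 ^ t * 2 ^ t := by
        rw [← mul_pow]
        norm_num
      rw [h3]
      ring
    rw [h2] at h1
    exact_mod_cast h1
  have h1 : ((univ.filter fun f : Sym2 W → Fin D => ¬ Expands φ m f).card : ℝ) ≤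
      ∑ q ∈ I, ((univ.filter fun f : Sym2 W → Fin D => ∀ e ∈ B q, (f e : ℕ) ≠ 0).card : ℝ) := by
    have h2 := (Finset.card_le_card hsub).trans Finset.card_biUnion_le
    exact_mod_cast h2
  refine h1.trans ?_
  rw [Finset.sum_congr rfl fun q hq => (by rw [card_avoid hD, hBcard q hq] :
    ((univ.filter fun f : Sym2 W → Fin D => ∀ e ∈ B q, (f e : ℕ) ≠ 0).card : ℝ) =
      (1 - 1 / (D : ℝ)) ^ (m * m) * (D : ℝ) ^ Fintype.card (Sym2 W)), Finset.sum_const,
    nsmul_eq_mul]
  have h0 : 0 ≤ 1 - 1 / (D : ℝ) := by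
    rw [sub_nonneg, div_le_one hDR]
    exact hD1
  have hP : (0 : ℝ) ≤ (D : ℝ) ^ Fintype.card (Sym2 W) := by positivity
  calc (I.card : ℝ) * ((1 - 1 / (D : ℝ)) ^ (m * m) * (D : ℝ) ^ Fintype.card (Sym2 W))
      ≤ (n : ℝ) ^ 2 * 4 ^ t * ((1 - 1 / (D : ℝ)) ^ (m * m) * (D : ℝ) ^ Fintype.card (Sym2 W)) :=
        mul_le_mul_of_nonneg_right hIcard (mul_nonneg (pow_nonneg h0 _) hP)
    _ = (n : ℝ) ^ 2 * 4 ^ t * (1 - 1 / (D : ℝ)) ^ (m * m) * (D : ℝ) ^ Fintype.card (Sym2 W) := by
        ring
    _ ≤ _ := mul_le_mul_of_nonneg_right hb hP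

open Classical in
/-- covers of the host graph are large -/
lemma cover_host (φ : Fin n × Fin t ↪ W) (U : Finset W) (hU : ∀ p, φ p ∉ U) (m : ℕ)
    {f : Sym2 W → Fin D} (hf : Expands φ m f) {A : ℕ} (β : Fin n → Fin A)
    {H : SimpleGraph (Fin n)} (hH : classGraph β ≤ H) (K : Finset W)
    (hK : IsCover (hostGraph φ U (fun e => (f e : ℕ) = 0) H) K) :
    U.card + n * t ≤ K.card + n * m + A * t + 1 := by
  -- the independent set
  set J : Finset W := univ \ K with hJ
  have hind : ∀ a ∈ J, ∀ b ∈ J, ¬ (hostGraph φ U (fun e => (f e : ℕ) = 0) H).Adj a b := by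
    intro a ha b hb hab
    rw [hJ, Finset.mem_sdiff] at ha hb
    rcases hK a b hab with h | h
    · exact ha.2 h
    · exact hb.2 h
  set V : Finset W := univ.map φ with hV
  have hVc : V.card = n * t := by
    rw [hV, Finset.card_map, Finset.card_univ, Fintype.card_prod, Fintype.card_fin,
      Fintype.card_fin]
  have hUV : Disjoint U V := by
    rw [Finset.disjoint_left]
    intro a ha hb
    rw [hV, Finset.mem_map] at hb
    obtain ⟨p, _, rfl⟩ := hb
    exact hU p ha
  -- the part of the set in the classes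
  set fib : Fin n → Finset (Fin t) := fun u => univ.filter fun i => φ (u, i) ∈ J with hfib
  set heavy : Finset (Fin n) := univ.filter fun u => m ≤ (fib u).card with hheavy
  have hheavyA : heavy.card ≤ A := by
    have h1 : heavy.card ≤ (univ : Finset (Fin A)).card := by
      refine Finset.card_le_card_of_injOn β (fun _ _ => Finset.mem_coe.mpr (Finset.mem_univ _)) ?_
      intro u hu v hv huv
      by_contra hne
      rw [Finset.mem_coe, hheavy, Finset.mem_filter] at hu hv
      obtain ⟨S, hS1, hS2⟩ := Finset.exists_subset_card_eq hu.2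
      obtain ⟨S', hS1', hS2'⟩ := Finset.exists_subset_card_eq hv.2
      obtain ⟨i, hi, j, hj, hij⟩ := hf u v hne S S' hS2 hS2'
      have h2 := hS1 hi
      have h3 := hS1' hj
      rw [hfib, Finset.mem_filter] at h2 h3
      refine hind _ h2.2 _ h3.2 ⟨?_, Or.inr (Or.inr ⟨u, i, v, j, rfl, rfl, hH ⟨hne, huv⟩, hij⟩)⟩
      intro h4
      have h5 := φ.injective h4
      rw [Prod.mk.injEq] at h5
      exact hne h5.1
    rwa [Finset.card_univ, Fintype.card_fin] at h1
  have hJV : (J ∩ V).card ≤ n * m + A * t := by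
    have h1 : (J ∩ V).card = ∑ u : Fin n, (fib u).card := by
      have h2 : J ∩ V = (univ.sigma fib).image fun x => φ (x.1, x.2) := by
        ext a
        rw [Finset.mem_inter, hV, Finset.mem_map, Finset.mem_image]
        constructor
        · rintro ⟨h3, p, _, rfl⟩
          refine ⟨⟨p.1, p.2⟩, ?_, rfl⟩
          rw [Finset.mem_sigma, hfib]
          exact ⟨Finset.mem_univ _, Finset.mem_filter.mpr ⟨Finset.mem_univ _, h3⟩⟩
        · rintro ⟨x, hx, rfl⟩
          rw [Finset.mem_sigma, hfib] at hx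
          exact ⟨(Finset.mem_filter.mp hx.2).2, (x.1, x.2), Finset.mem_univ _, rfl⟩
      rw [h2, Finset.card_image_of_injOn, Finset.card_sigma]
      intro x _ y _ hxy
      have h3 := φ.injective hxy
      rw [Prod.mk.injEq] at h3
      exact Sigma.ext h3.1 (heq_of_eq h3.2)
    rw [h1]
    have h2 : ∀ u : Fin n, (fib u).card ≤ m + if u ∈ heavy then t else 0 := by
      intro u
      by_cases hu : u ∈ heavy
      · rw [if_pos hu]
        have h3 := Finset.card_le_univ (fib u)
        rw [Fintype.card_fin] at h3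
        omega
      · rw [if_neg hu]
        rw [hheavy, Finset.mem_filter] at hu
        have h3 : ¬ m ≤ (fib u).card := fun h => hu ⟨Finset.mem_univ _, h⟩
        omega
    refine (Finset.sum_le_sum fun u _ => h2 u).trans ?_
    rw [Finset.sum_add_distrib, Finset.sum_const, Finset.card_univ, Fintype.card_fin,
      smul_eq_mul, ← Finset.sum_filter, Finset.sum_const, smul_eq_mul]
    have h3 : (univ.filter fun u => u ∈ heavy) = heavy := by
      ext u
      simp
    rw [h3]
    have h4 := Nat.mul_le_mul_right t hheavyA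
    omega
  have hJU : (J ∩ U).card ≤ 1 := by
    rw [Finset.card_le_one]
    intro a ha b hb
    rw [Finset.mem_inter] at ha hb
    by_contra hne
    exact hind a ha.1 b hb.1 ⟨hne, Or.inl ha.2⟩
  have h1 : (U ∪ V).card = U.card + n * t := by
    rw [Finset.card_union_of_disjoint hUV, hVc]
  have h2 : U ∪ V ⊆ K ∪ ((J ∩ V) ∪ (J ∩ U)) := by
    intro a ha
    by_cases hK' : a ∈ K
    · exact Finset.mem_union_left _ hK'
    · refine Finset.mem_union_right _ ?_
      have hJa : a ∈ J := by
        rw [hJ, Finset.mem_sdiff]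
        exact ⟨Finset.mem_univ _, hK'⟩
      rcases Finset.mem_union.mp ha with h | h
      · exact Finset.mem_union_right _ (Finset.mem_inter.mpr ⟨hJa, h⟩)
      · exact Finset.mem_union_left _ (Finset.mem_inter.mpr ⟨hJa, h⟩)
  have h3 := Finset.card_le_card h2
  have h4 := Finset.card_union_le K ((J ∩ V) ∪ (J ∩ U))
  have h5 := Finset.card_union_le (J ∩ V) (J ∩ U)
  omega

open Classical in
/-- a small cover of the host graph -/
lemma host_touch (φ : Fin n × Fin t ↪ W) (U : Finset W) (z : Sym2 W → Prop) (T : Finset (Fin n)) :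
    IsCover (hostGraph φ U z (touchGraph T)) (U ∪ (T ×ˢ (univ : Finset (Fin t))).map φ) ∧
      (U ∪ (T ×ˢ (univ : Finset (Fin t))).map φ).card ≤ U.card + T.card * t := by
  constructor
  · rintro a b ⟨_, h | h | ⟨u, i, v, j, h1, h2, h3, _⟩⟩
    · exact Or.inl (Finset.mem_union_left _ h)
    · exact Or.inr (Finset.mem_union_left _ h)
    · rcases h3.2 with h4 | h4
      · refine Or.inl (Finset.mem_union_right _ ?_)
        rw [h1]
        exact Finset.mem_map_of_mem _ (Finset.mem_product.mpr ⟨h4, Finset.mem_univ _⟩)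
      · refine Or.inr (Finset.mem_union_right _ ?_)
        rw [h2]
        exact Finset.mem_map_of_mem _ (Finset.mem_product.mpr ⟨h4, Finset.mem_univ _⟩)
  · refine (Finset.card_union_le _ _).trans ?_
    rw [Finset.card_map, Finset.card_product, Finset.card_univ, Fintype.card_fin]

end Pool.Agent.V11231.VCF
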