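import Pool.Agent.V11231.VCF.Core

/-! The parameters. -/

set_option autoImplicit false
set_option linter.unusedSectionVars false
set_option linter.unusedVariables false

namespace Pool.Agent.V11231.VCF

lemma four_pow_le (k : ℕ) : (4 : ℝ) ^ k ≤ Real.exp (2 * k) := by
  have h1 : (2 : ℝ) ≤ Real.exp 1 := by
    have := Real.add_one_le_exp (1 : ℝ)
    linarith
  have h2 : (4 : ℝ) ≤ Real.exp 2 := by
    have h3 : Real.exp 2 = Real.exp 1 * Real.exp 1 := by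
      rw [← Real.exp_add]
      norm_num
    rw [h3]
    nlinarith
  calc (4 : ℝ) ^ k ≤ Real.exp 2 ^ k := pow_le_pow_left₀ (by norm_num) h2 k
    _ = Real.exp (2 * k) := by
        rw [← Real.exp_nat_mul]
        congr 1
        ring

lemma exp_neg_eight : Real.exp (-8) ≤ 1 / 20 := by
  have h1 := four_pow_le 4
  have h2 : Real.exp (-8) * Real.exp (2 * ((4 : ℕ) : ℝ)) = 1 := by
    rw [← Real.exp_add]
    norm_num
  have h3 := Real.exp_pos (-8)
  nlinarith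

lemma params (ε η : ℝ) (hε : 0 < ε) (hε1 : ε ≤ 1) (hη : 0 < η) (hη1 : η ≤ 1) :
    ∃ N₀ : ℕ, ∀ N : ℕ, N₀ ≤ N → ∀ D : ℕ, 1 ≤ D → ∀ ρ : ℝ, 1 ≤ ρ →
      ρ ^ 2 * D ≤ (N : ℝ) ^ (1 - η) → ∃ n t m L : ℕ, 1 ≤ L ∧ n * t ≤ N ∧
        (N : ℝ) ≤ n * t + ε / 8 * N ∧ (n : ℝ) * m ≤ 3 / 8 * ε * N ∧
        16 * 10 ^ 5 * (1 / ε * (ρ / ε)) * (L : ℝ) ^ 3 * (Nat.log 2 n + 1) ≤ Real.sqrt n ∧
        (n : ℝ) ^ 2 * 4 ^ t * (1 - 1 / (D : ℝ)) ^ (m * m) ≤ 1 / 20 ∧
        (∀ s : ℕ, (s : ℝ) < (2 : ℝ) ^ ((N : ℝ) ^ (η / 7)) → 8 * (3 * s + 4) ≤ 2 ^ L) ∧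
        1 ≤ ε / 8 * N := by
  set K₀ : ℕ := ⌈64 / ε ^ 2⌉₊ with hK₀
  have hK₀r : 64 / ε ^ 2 ≤ (K₀ : ℝ) := Nat.le_ceil _
  have hε2 : ε ^ 2 ≤ 1 := pow_le_one₀ hε.le hε1
  have hε2p : 0 < ε ^ 2 := by positivity
  have hK64 : (64 : ℝ) ≤ K₀ := by
    refine le_trans ?_ hK₀r
    rw [le_div_iff₀ hε2p]
    linarith
  have hK0ε : 64 ≤ (K₀ : ℝ) * ε ^ 2 := by
    rwa [div_le_iff₀ hε2p] at hK₀r
  set K₁ : ℝ := (16 * 10 ^ 5 * (1 / ε * (1 / ε))) ^ 2 * 8 ^ 6 * (2 * K₀) with hK₁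
  have hK₁1 : 1 ≤ K₁ := by
    have h1 : 1 ≤ 1 / ε := by
      rw [le_div_iff₀ hε]
      linarith
    have h1' : (1 : ℝ) ≤ 1 / ε * (1 / ε) := one_le_mul_of_one_le_of_one_le h1 h1
    have h2 : (1 : ℝ) ≤ 16 * 10 ^ 5 * (1 / ε * (1 / ε)) := by linarith
    have h3 : (1 : ℝ) ≤ (16 * 10 ^ 5 * (1 / ε * (1 / ε))) ^ 2 := one_le_pow₀ h2
    rw [hK₁]
    exact one_le_mul_of_one_le_of_one_le
      (one_le_mul_of_one_le_of_one_le h3 (by norm_num)) (by linarith)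
  obtain ⟨N1, hN1⟩ := H630VC.eventually_log K₁ (η / 14) (by positivity)
  obtain ⟨N2, hN2⟩ := H630VC.eventually_log (K₀ * 8 / ε) η hη
  refine ⟨max (max N1 N2) (⌈8 / ε⌉₊ + 1), fun N hN D hD ρ hρ hDρ => ?_⟩
  have hN0 : ⌈8 / ε⌉₊ + 1 ≤ N := (le_max_right _ _).trans hN
  have g1 := hN1 N (((le_max_left _ _).trans (le_max_left _ _)).trans hN)
  have g2 := hN2 N (((le_max_right _ _).trans (le_max_left _ _)).trans hN)
  have hNε : 8 / ε ≤ (N : ℝ) := by
    have h1 : 8 / ε ≤ (⌈8 / ε⌉₊ : ℝ) := Nat.le_ceil _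
    have h2 : ((⌈8 / ε⌉₊ : ℕ) : ℝ) ≤ N := by exact_mod_cast (by omega : ⌈8 / ε⌉₊ ≤ N)
    linarith
  have hN1' : 1 ≤ N := by omega
  have hNpos : (0 : ℝ) < N := by exact_mod_cast hN1'
  have hNone : (1 : ℝ) ≤ N := by exact_mod_cast hN1'
  have hDpos : (0 : ℝ) < D := by exact_mod_cast hD
  have hDone : (1 : ℝ) ≤ D := by exact_mod_cast hD
  set lam : ℕ := Nat.log 2 N + 1 with hlam
  have hlam1 : 1 ≤ lam := by omega
  have hlamr : (1 : ℝ) ≤ lam := by exact_mod_cast hlam1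
  have hlamc : (Nat.log 2 N : ℝ) + 1 = lam := by rw [hlam]; push_cast; rfl
  rw [hlamc] at g1 g2
  have hNlam : N < 2 ^ lam := Nat.lt_pow_succ_log_self (by norm_num) N
  set t : ℕ := K₀ * D * lam with ht
  have htr : (t : ℝ) = K₀ * D * lam := by rw [ht]; push_cast; rfl
  have ht64 : (64 : ℝ) ≤ t := by
    rw [htr]
    have h1 : (64 : ℝ) * 1 * 1 ≤ K₀ * D * lam := by gcongr
    linarith
  have htpos : (0 : ℝ) < t := by linarith
  have htpos' : 0 < t := by exact_mod_cast htpos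
  -- the size of `t`
  have hDN : (D : ℝ) ≤ (N : ℝ) ^ (1 - η) := by
    refine le_trans ?_ hDρ
    have h1 : (1 : ℝ) ≤ ρ ^ 2 := one_le_pow₀ hρ
    exact le_mul_of_one_le_left hDpos.le h1
  have hNN : (N : ℝ) ^ (1 - η) * (N : ℝ) ^ η = N := by
    rw [← Real.rpow_add hNpos]
    norm_num
  have htN : (t : ℝ) ≤ ε / 8 * N := by
    have h1 : K₀ * 8 / ε * (lam : ℝ) ≤ (N : ℝ) ^ η := by
      refine le_trans ?_ g2
      have h2 : (lam : ℝ) ≤ (lam : ℝ) ^ 2 := by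
        rw [pow_two]
        exact le_mul_of_one_le_left (by positivity) hlamr
      have h3 : 0 ≤ K₀ * 8 / ε := by positivity
      exact mul_le_mul_of_nonneg_left h2 h3
    have h2 : (0 : ℝ) ≤ (N : ℝ) ^ (1 - η) := by positivity
    have h4 : (D : ℝ) * (K₀ * 8 / ε * (lam : ℝ)) ≤ N := by
      calc (D : ℝ) * (K₀ * 8 / ε * (lam : ℝ)) ≤ (N : ℝ) ^ (1 - η) * (N : ℝ) ^ η := by
            apply mul_le_mul hDN h1 (by positivity) h2
        _ = N := hNN
    have h5 : (D : ℝ) * (K₀ * 8 / ε * (lam : ℝ)) = t * (8 / ε) := by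
      rw [htr]
      ring
    rw [h5] at h4
    have h6 : (t : ℝ) = ε / 8 * (t * (8 / ε)) := by
      field_simp
    rw [h6]
    exact mul_le_mul_of_nonneg_left h4 (by positivity)
  set n : ℕ := N / t with hn
  have htN' : t ≤ N := by
    have h1 : (t : ℝ) ≤ N := by
      refine htN.trans ?_
      have h2 : ε / 8 * (N : ℝ) ≤ 1 * N := mul_le_mul_of_nonneg_right (by linarith) hNpos.le
      linarith
    exact_mod_cast h1
  have hn1 : 1 ≤ n := by
    rw [hn, Nat.one_le_div_iff htpos']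
    exact htN'
  have hnt : n * t ≤ N := Nat.div_mul_le_self N t
  have hntr : (n : ℝ) * t ≤ N := by exact_mod_cast hnt
  have hnt2 : N < n * t + t := by
    have h1 := Nat.div_add_mod N t
    have h2 := Nat.mod_lt N htpos'
    rw [mul_comm t] at h1
    rw [← hn] at h1
    omega
  have hnt2r : (N : ℝ) ≤ n * t + t := by exact_mod_cast hnt2.le
  have hnone : (1 : ℝ) ≤ n := by exact_mod_cast hn1
  have hnpos : (0 : ℝ) < n := by linarith
  have hN2nt : (N : ℝ) ≤ 2 * (n * t) := by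
    have h1 : (t : ℝ) ≤ n * t := le_mul_of_one_le_left htpos.le hnone
    linarith
  have hnN : n ≤ N := Nat.div_le_self N t
  set m : ℕ := ⌈ε * t / 4⌉₊ with hm
  have hm1 : ε * t / 4 ≤ (m : ℝ) := Nat.le_ceil _
  have hm2 : (m : ℝ) ≤ ε * t / 4 + 1 := (Nat.ceil_lt_add_one (by positivity)).le
  set x : ℝ := (N : ℝ) ^ (η / 7) with hx
  have hx1 : 1 ≤ x := Real.one_le_rpow hNone (by positivity)
  set L : ℕ := ⌈x⌉₊ + 6 with hL
  have hLx : x + 6 ≤ (L : ℝ) := by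
    rw [hL]
    push_cast
    linarith [Nat.le_ceil x]
  have hLx' : (L : ℝ) ≤ 8 * x := by
    rw [hL]
    push_cast
    have := (Nat.ceil_lt_add_one (show (0 : ℝ) ≤ x by linarith)).le
    linarith
  refine ⟨n, t, m, L, by omega, hnt, hnt2r.trans (by linarith), ?_, ?_, ?_, ?_, ?_⟩
  · -- `n m`
    have h1 : (n : ℝ) ≤ ε / 8 * N := by
      have h2 : (n : ℝ) * 64 ≤ ε ^ 2 * N := by
        have h3 : (n : ℝ) * (K₀ : ℝ) ≤ N := by
          refine le_trans ?_ hntr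
          rw [htr]
          have h4 : (K₀ : ℝ) * 1 * 1 ≤ K₀ * D * lam := by gcongr
          have h5 : (K₀ : ℝ) ≤ K₀ * D * lam := by linarith
          exact mul_le_mul_of_nonneg_left h5 hnpos.le
        calc (n : ℝ) * 64 ≤ n * (K₀ * ε ^ 2) := by gcongr
          _ = ε ^ 2 * (n * K₀) := by ring
          _ ≤ ε ^ 2 * N := by gcongr
      have h4 : ε ^ 2 * (N : ℝ) ≤ ε * N := by
        apply mul_le_mul_of_nonneg_right _ hNpos.le
        rw [pow_two]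
        exact mul_le_of_le_one_left hε.le hε1
      have h5 : 0 ≤ ε * (N : ℝ) := by positivity
      linarith
    calc (n : ℝ) * m ≤ n * (ε * t / 4 + 1) := by gcongr
      _ = ε / 4 * (n * t) + n := by ring
      _ ≤ ε / 4 * N + ε / 8 * N := by gcongr
      _ = 3 / 8 * ε * N := by ring
  · -- the main inequality
    have hlogn : ((Nat.log 2 n : ℕ) : ℝ) + 1 ≤ lam := by
      have h1 : Nat.log 2 n ≤ Nat.log 2 N := Nat.log_mono_right hnN
      have h2 : ((Nat.log 2 n : ℕ) : ℝ) ≤ (Nat.log 2 N : ℕ) := by exact_mod_cast h1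
      rw [← hlamc]
      linarith
    apply Real.le_sqrt_of_sq_le
    have h0 : (0 : ℝ) ≤ ((Nat.log 2 n : ℕ) : ℝ) + 1 := by positivity
    have hρ0 : 0 < ρ := by linarith
    have hx6 : x ^ 6 * (N : ℝ) ^ (1 - η) * x = (N : ℝ) := by
      have h1 : x ^ 7 = (N : ℝ) ^ η := by
        rw [hx, ← Real.rpow_natCast, ← Real.rpow_mul hNpos.le]
        congr 1
        push_cast
        ring
      calc x ^ 6 * (N : ℝ) ^ (1 - η) * x = (N : ℝ) ^ (1 - η) * x ^ 7 := by ring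
        _ = (N : ℝ) := by rw [h1, hNN]
    have hKx : K₁ * (lam : ℝ) ^ 3 ≤ x := by
      have h1 : K₁ * (lam : ℝ) ^ 3 ≤ (K₁ * (lam : ℝ) ^ 2) ^ 2 := by
        have h2 : K₁ * (lam : ℝ) ^ 3 ≤ K₁ * (lam : ℝ) ^ 4 := by
          have h3 : (lam : ℝ) ^ 3 ≤ (lam : ℝ) ^ 4 := pow_le_pow_right₀ hlamr (by norm_num)
          have h4 : 0 ≤ K₁ := by linarith
          exact mul_le_mul_of_nonneg_left h3 h4
        have h5 : K₁ * (lam : ℝ) ^ 4 ≤ K₁ * (K₁ * (lam : ℝ) ^ 4) := by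
          have h6 : 0 ≤ K₁ * (lam : ℝ) ^ 4 := by positivity
          exact le_mul_of_one_le_left h6 hK₁1
        calc _ ≤ _ := h2
          _ ≤ _ := h5
          _ = _ := by ring
      refine h1.trans ?_
      have h2 : (K₁ * (lam : ℝ) ^ 2) ^ 2 ≤ ((N : ℝ) ^ (η / 14)) ^ 2 :=
        pow_le_pow_left₀ (by positivity) g1 2
      refine h2.trans (le_of_eq ?_)
      rw [hx, ← Real.rpow_natCast, ← Real.rpow_mul hNpos.le]
      congr 1
      push_cast
      ring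
    have hmain : (16 * 10 ^ 5 * (1 / ε * (1 / ε))) ^ 2 * (8 * x) ^ 6 * (lam : ℝ) ^ 2 * ρ ^ 2 *
        (2 * t) ≤ N := by
      calc (16 * 10 ^ 5 * (1 / ε * (1 / ε))) ^ 2 * (8 * x) ^ 6 * (lam : ℝ) ^ 2 * ρ ^ 2 * (2 * t)
          = K₁ * (lam : ℝ) ^ 3 * (x ^ 6 * (ρ ^ 2 * D)) := by
            rw [htr, hK₁]
            ring
        _ ≤ x * (x ^ 6 * (N : ℝ) ^ (1 - η)) := by
            apply mul_le_mul hKx _ (by positivity) (by positivity)
            exact mul_le_mul_of_nonneg_left hDρ (by positivity)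
        _ = x ^ 6 * (N : ℝ) ^ (1 - η) * x := by ring
        _ = (N : ℝ) := hx6
    have hL6 : (L : ℝ) ^ 6 ≤ (8 * x) ^ 6 := pow_le_pow_left₀ (by positivity) hLx' 6
    have hlog2 : (((Nat.log 2 n : ℕ) : ℝ) + 1) ^ 2 ≤ (lam : ℝ) ^ 2 := pow_le_pow_left₀ h0 hlogn 2
    have h7 : (16 * 10 ^ 5 * (1 / ε * (ρ / ε)) * (L : ℝ) ^ 3 * (((Nat.log 2 n : ℕ) : ℝ) + 1)) ^ 2 *
        (2 * t) ≤ n * (2 * t) := by
      calc (16 * 10 ^ 5 * (1 / ε * (ρ / ε)) * (L : ℝ) ^ 3 * (((Nat.log 2 n : ℕ) : ℝ) + 1)) ^ 2 *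
            (2 * t) = (16 * 10 ^ 5 * (1 / ε * (1 / ε))) ^ 2 * (L : ℝ) ^ 6 *
            (((Nat.log 2 n : ℕ) : ℝ) + 1) ^ 2 * ρ ^ 2 * (2 * t) := by
            ring
        _ ≤ (16 * 10 ^ 5 * (1 / ε * (1 / ε))) ^ 2 * (8 * x) ^ 6 * (lam : ℝ) ^ 2 * ρ ^ 2 *
            (2 * t) := by gcongr
        _ ≤ N := hmain
        _ ≤ n * (2 * t) := by linarith
    exact le_of_mul_le_mul_right h7 (by positivity)
  · -- the expansion
    have h1 : (n : ℝ) ^ 2 ≤ Real.exp (2 * lam) := by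
      refine le_trans ?_ (four_pow_le lam)
      have h2 : (n : ℝ) ≤ 2 ^ lam := by exact_mod_cast hnN.trans hNlam.le
      calc (n : ℝ) ^ 2 ≤ (2 ^ lam) ^ 2 := pow_le_pow_left₀ hnpos.le h2 2
        _ = 4 ^ lam := by
            rw [← pow_mul, mul_comm, pow_mul]
            norm_num
    have h2 := four_pow_le t
    have h3 : (1 - 1 / (D : ℝ)) ^ (m * m) ≤ Real.exp (-(m * m / D)) := by
      have h4 : 0 ≤ 1 - 1 / (D : ℝ) := by
        rw [sub_nonneg, div_le_one hDpos]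
        exact hDone
      have h5 : 1 - 1 / (D : ℝ) ≤ Real.exp (-(1 / D)) := Real.one_sub_le_exp_neg _
      calc (1 - 1 / (D : ℝ)) ^ (m * m) ≤ (Real.exp (-(1 / D))) ^ (m * m) :=
            pow_le_pow_left₀ h4 h5 _
        _ = Real.exp (-(m * m / D)) := by
            rw [← Real.exp_nat_mul]
            congr 1
            push_cast
            ring
    have h4 : 4 * (t * (lam : ℝ)) ≤ m * m / D := by
      rw [le_div_iff₀ hDpos]
      have h5 : (ε * t / 4) * (ε * t / 4) ≤ m * m :=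
        mul_le_mul hm1 hm1 (by positivity) (by positivity)
      refine le_trans ?_ h5
      have h6 : (ε * t / 4) * (ε * t / 4) = (K₀ * ε ^ 2) * (t * D * lam) / 16 := by
        rw [htr]
        ring
      rw [h6]
      have h7 : 64 * (t * D * (lam : ℝ)) ≤ (K₀ * ε ^ 2) * (t * D * lam) :=
        mul_le_mul_of_nonneg_right hK0ε (by positivity)
      linarith
    calc (n : ℝ) ^ 2 * 4 ^ t * (1 - 1 / (D : ℝ)) ^ (m * m)
        ≤ Real.exp (2 * lam) * Real.exp (2 * t) * Real.exp (-(m * m / D)) := by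
          have h4' : 0 ≤ 1 - 1 / (D : ℝ) := by
            rw [sub_nonneg, div_le_one hDpos]
            exact hDone
          have h8 : 0 ≤ (1 - 1 / (D : ℝ)) ^ (m * m) := pow_nonneg h4' _
          apply mul_le_mul (mul_le_mul h1 h2 (by positivity) (by positivity)) h3 h8 (by positivity)
      _ = Real.exp (2 * lam + 2 * t + -(m * m / D)) := by
          rw [← Real.exp_add, ← Real.exp_add]
      _ ≤ Real.exp (-8) := by
          apply Real.exp_le_exp.mpr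
          have h9 : (t : ℝ) ≤ t * lam := le_mul_of_one_le_right htpos.le hlamr
          have h10 : 64 * (lam : ℝ) ≤ t * lam :=
            mul_le_mul_of_nonneg_right ht64 (by linarith)
          linarith
      _ ≤ 1 / 20 := exp_neg_eight
  · intro s hs
    have h1 : (8 * (3 * (s : ℝ) + 4)) ≤ 2 ^ L := by
      have h2 : (2 : ℝ) ^ (x + 6) ≤ (2 : ℝ) ^ L := by
        rw [← Real.rpow_natCast]
        exact Real.rpow_le_rpow_of_exponent_le (by norm_num) hLx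
      have h3 : (2 : ℝ) ^ (x + 6) = 2 ^ x * 64 := by
        rw [Real.rpow_add (by norm_num)]
        norm_num
      have h4 : (1 : ℝ) ≤ 2 ^ x := Real.one_le_rpow (by norm_num) (by linarith)
      rw [h3] at h2
      linarith
    exact_mod_cast h1
  · rw [div_le_iff₀ hε] at hNε
    linarith

end Pool.Agent.V11231.VCF
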