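import Pool.Agent.V11231.FLT.Slot

/-! Circuits whose negations are unreliable: inputs hidden at all the faulty positions. -/

set_option autoImplicit false
set_option linter.unusedSectionVars false
set_option linter.unusedVariables false

namespace Pool.Agent.V11231.VCF

open Finset Pool.Agent.V11231.FLT

open Classical in
/-- The input whose bits in `S` say where the faults are and whose other bits are given. -/
noncomputable def mix {E : Type} {D : ℕ} (S : Set E) (base : E → Bool) (f : E → Fin D) : E → Bool :=
  fun e => if e ∈ S then decide ((f e : ℕ) = 0) else base e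

/-- the set of faults -/
def flt {E : Type} {D : ℕ} (f : E → Fin D) : Set E := {e | (f e : ℕ) = 0}

open Classical in
/-- the first function on `S`, the second function elsewhere -/
noncomputable def glue {E : Type} {D : ℕ} (S : Set E) (f g : E → Fin D) : E → Fin D :=
  fun e => if e ∈ S then f e else g e

lemma glue_glue {E : Type} {D : ℕ} (S : Set E) (f g : E → Fin D) :
    glue S (glue S f g) (glue S g f) = f := by
  funext e
  unfold glue
  by_cases he : e ∈ S
  · simp [he]
  · simp [he]

lemma mix_glue {E : Type} {D : ℕ} (S : Set E) (base : E → Bool) (f g : E → Fin D) :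
    mix S base (glue S f g) = mix S base f := by
  funext e
  unfold mix glue
  by_cases he : e ∈ S
  · simp [he]
  · simp [he]

lemma lit_glue {E : Type} {D : ℕ} (S : Set E) (base : E → Bool) (f g : E → Fin D) :
    literals (mix S base f) (flt g) ≤ literals (mix S base f) (flt (glue S f g)) := by
  intro p
  unfold literals
  by_cases hp : p.2 = true
  · rw [if_pos hp, if_pos hp]
  · rw [if_neg hp, if_neg hp]
    by_cases he : p.1 ∈ S
    · by_cases hf : ((f p.1 : Fin D) : ℕ) = 0
      · have h1 : mix S base f p.1 = true := by
          unfold mix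
          rw [if_pos he]
          simpa using hf
        rw [h1]
        by_cases hg : p.1 ∈ flt g
        · rw [if_pos hg]
          exact Bool.false_le _
        · rw [if_neg hg]
          exact Bool.false_le _
      · have h1 : p.1 ∉ flt (glue S f g) := by
          unfold flt glue
          simp only [Set.mem_setOf_eq, if_pos he]
          exact hf
        rw [if_neg h1]
        by_cases hg : p.1 ∈ flt g
        · rw [if_pos hg]
          exact Bool.false_le _
        · rw [if_neg hg]
    · have h1 : p.1 ∈ flt (glue S f g) ↔ p.1 ∈ flt g := by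
        unfold flt glue
        simp only [Set.mem_setOf_eq, if_neg he]
      by_cases hg : p.1 ∈ flt g
      · rw [if_pos hg, if_pos (h1.mpr hg)]
      · rw [if_neg hg, if_neg (fun h => hg (h1.mp h))]

lemma lit_empty {E : Type} (x : E → Bool) (Z : Set E) :
    literals x Z ≤ literals x ∅ := by
  intro p
  unfold literals
  by_cases hp : p.2 = true
  · rw [if_pos hp, if_pos hp]
  · rw [if_neg hp, if_neg hp, if_neg (Set.notMem_empty _)]
    by_cases hg : p.1 ∈ Z
    · rw [if_pos hg]
      exact Bool.false_le _
    · rw [if_neg hg]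

lemma accepts_mono {E : Type} (C : LiteralCircuit E) {x y : E → Bool} {Z Z' : Set E}
    (h : literals x Z ≤ literals y Z') (hx : C.Accepts x Z) : C.Accepts y Z' := by
  rw [← toRC_acc, lit_eq] at hx ⊢
  exact Pool.Agent.Y630.TF.acc_mono (toRC C) rfl h hx

variable {E R : Type} [Fintype E] [DecidableEq E] [Fintype R] [Nonempty R]

open Classical in
/-- **Acceptance.** If the circuits accept, in spite of random faults, most of the inputs in which
the bits of `S` are a random set of the same density as the faults, then they also accept them if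
the faults in `S` are exactly these bits. -/
lemma thick_accept {D : ℕ} (hD : 0 < D) (C : R → LiteralCircuit E) (S : Set E) (base : E → Bool)
    (good : (E → Fin D) → Prop)
    (hbad : ((univ.filter fun f : E → Fin D => ¬ good f).card : ℝ) ≤
      1 / 20 * (D : ℝ) ^ Fintype.card E)
    (h : ∀ f, good f → 4 / 5 ≤ faultyAcceptance C D (mix S base f)) :
    3 / 4 * (Fintype.card (R × (E → Fin D)) : ℝ) ≤
      ((univ.filter fun v : R × (E → Fin D) =>
        (C v.1).Accepts (mix S base v.2) (flt v.2)).card : ℝ) := by
  have hcard : (Fintype.card (E → Fin D) : ℝ) = (D : ℝ) ^ Fintype.card E := by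
    rw [Fintype.card_fun, Fintype.card_fin]
    push_cast
    rfl
  have hDE : (0 : ℝ) < (D : ℝ) ^ Fintype.card E := by positivity
  have hR : (0 : ℝ) < Fintype.card R := by exact_mod_cast Fintype.card_pos
  set P : ℝ := (D : ℝ) ^ Fintype.card E with hP
  -- the triples
  set T : Finset ((R × (E → Fin D)) × (E → Fin D)) :=
    univ.filter fun w => (C w.1.1).Accepts (mix S base w.2) (flt w.1.2) with hT
  set T' : Finset ((R × (E → Fin D)) × (E → Fin D)) :=
    univ.filter fun w => (C w.1.1).Accepts (mix S base w.1.2) (flt w.1.2) with hT'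
  have hTT : T.card ≤ T'.card := by
    refine Finset.card_le_card_of_injOn (fun w => ((w.1.1, glue S w.2 w.1.2), glue S w.1.2 w.2))
      ?_ ?_
    · intro w hw
      rw [Finset.mem_coe, hT, Finset.mem_filter] at hw
      rw [Finset.mem_coe, hT', Finset.mem_filter]
      refine ⟨Finset.mem_univ _, ?_⟩
      show (C w.1.1).Accepts (mix S base (glue S w.2 w.1.2)) (flt (glue S w.2 w.1.2))
      rw [mix_glue]
      exact accepts_mono _ (lit_glue S base w.2 w.1.2) hw.2
    · intro w _ w' _ hww
      simp only [Prod.mk.injEq] at hww
      obtain ⟨⟨h1, h2⟩, h3⟩ := hww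
      have e1 : w.2 = w'.2 := by
        rw [← glue_glue S w.2 w.1.2, ← glue_glue S w'.2 w'.1.2, h2, h3]
      have e2 : w.1.2 = w'.1.2 := by
        rw [← glue_glue S w.1.2 w.2, ← glue_glue S w'.1.2 w'.2, h2, h3]
      exact Prod.ext (Prod.ext h1 e2) e1
  have hT'card : (T'.card : ℝ) = ((univ.filter fun v : R × (E → Fin D) =>
        (C v.1).Accepts (mix S base v.2) (flt v.2)).card : ℝ) * P := by
    have h1 : T' = (univ.filter fun v : R × (E → Fin D) =>
        (C v.1).Accepts (mix S base v.2) (flt v.2)) ×ˢ (univ : Finset (E → Fin D)) := by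
      ext w
      simp [hT']
    rw [h1, Finset.card_product, Finset.card_univ]
    push_cast
    rw [hcard]
  have hTcard : (T.card : ℝ) = ∑ f : E → Fin D,
      ((univ.filter fun v : R × (E → Fin D) =>
        (C v.1).Accepts (mix S base f) (flt v.2)).card : ℝ) := by
    have h1 : T.card = ∑ f : E → Fin D, (T.filter fun w => w.2 = f).card :=
      Finset.card_eq_sum_card_fiberwise (fun w _ => Finset.mem_coe.mpr (Finset.mem_univ _))
    rw [h1]
    push_cast
    refine Finset.sum_congr rfl fun f _ => ?_
    congr 1
    refine Finset.card_bij (fun w _ => w.1) ?_ ?_ ?_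
    · intro w hw
      simp only [hT, Finset.mem_filter, Finset.mem_univ, true_and] at hw ⊢
      rw [← hw.2]
      exact hw.1
    · intro w hw w' hw' hww
      simp only [Finset.mem_filter] at hw hw'
      exact Prod.ext hww (hw.2.trans hw'.2.symm)
    · intro v hv
      simp only [Finset.mem_filter, Finset.mem_univ, true_and] at hv
      refine ⟨(v, f), ?_, rfl⟩
      simp only [hT, Finset.mem_filter, Finset.mem_univ, true_and, and_true]
      exact hv
  have hlow : ∀ f, good f → 4 / 5 * ((Fintype.card R : ℝ) * P) ≤
      ((univ.filter fun v : R × (E → Fin D) =>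
        (C v.1).Accepts (mix S base f) (flt v.2)).card : ℝ) := by
    intro f hf
    have h4 := h f hf
    unfold faultyAcceptance at h4
    rw [le_div_iff₀ (by
      rw [Nat.card_eq_fintype_card, Fintype.card_prod, Fintype.card_fun, Fintype.card_fin]
      push_cast
      positivity)] at h4
    rw [Nat.card_eq_fintype_card (α := R × (E → Fin D)), Fintype.card_prod,
      Fintype.card_fun, Fintype.card_fin] at h4
    refine (le_of_eq ?_).trans (h4.trans (le_of_eq ?_))
    · push_cast
      rfl
    · congr 1
      rw [Nat.card_eq_fintype_card, Fintype.card_subtype]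
      rfl
  have hsum : (∑ f : E → Fin D, if good f then 4 / 5 * ((Fintype.card R : ℝ) * P) else 0) ≤
      (T.card : ℝ) := by
    rw [hTcard]
    refine Finset.sum_le_sum fun f _ => ?_
    split_ifs with hf
    · exact hlow f hf
    · positivity
  have hgood : (19 / 20 : ℝ) * P ≤ ((univ.filter fun f : E → Fin D => good f).card : ℝ) := by
    have h1 := Finset.card_filter_add_card_filter_not (s := (univ : Finset (E → Fin D)))
      (p := fun f => good f)
    rw [Finset.card_univ] at h1
    have h2 : ((univ.filter fun f : E → Fin D => good f).card : ℝ) +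
        ((univ.filter fun f : E → Fin D => ¬ good f).card : ℝ) = P := by
      rw [← hcard]
      exact_mod_cast h1
    linarith
  rw [← Finset.sum_filter, Finset.sum_const, nsmul_eq_mul] at hsum
  have h5 : (19 / 20 : ℝ) * P * (4 / 5 * ((Fintype.card R : ℝ) * P)) ≤
      ((univ.filter fun v : R × (E → Fin D) =>
        (C v.1).Accepts (mix S base v.2) (flt v.2)).card : ℝ) * P := by
    rw [← hT'card]
    refine le_trans ?_ (hsum.trans (by exact_mod_cast hTT))
    exact mul_le_mul_of_nonneg_right hgood (by positivity)
  have h6 : (19 / 20 : ℝ) * (4 / 5 * ((Fintype.card R : ℝ) * P)) ≤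
      ((univ.filter fun v : R × (E → Fin D) =>
        (C v.1).Accepts (mix S base v.2) (flt v.2)).card : ℝ) := by
    refine le_of_mul_le_mul_right ?_ hDE
    calc (19 / 20 : ℝ) * (4 / 5 * ((Fintype.card R : ℝ) * P)) * P
        = (19 / 20 : ℝ) * P * (4 / 5 * ((Fintype.card R : ℝ) * P)) := by ring
      _ ≤ _ := h5
  refine le_trans ?_ h6
  rw [Fintype.card_prod]
  push_cast
  have h7 : ((Fintype.card (E → Fin D) : ℕ) : ℝ) = P := hcard
  rw [h7]
  have h8 : 0 ≤ (Fintype.card R : ℝ) * P := by positivity
  linarith

open Classical in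
/-- **Rejection.** Faults only make acceptance less likely. -/
lemma thick_reject {D : ℕ} (C : R → LiteralCircuit E) (S : Set E) (base : E → Bool)
    (h : ∀ f : E → Fin D, acceptance C (mix S base f) ≤ 1 / 4) :
    ((univ.filter fun v : R × (E → Fin D) =>
        (C v.1).Accepts (mix S base v.2) (flt v.2)).card : ℝ) ≤
      1 / 4 * (Fintype.card (R × (E → Fin D)) : ℝ) := by
  have hR : (0 : ℝ) < Fintype.card R := by exact_mod_cast Fintype.card_pos
  set T : Finset (R × (E → Fin D)) :=
    univ.filter fun v => (C v.1).Accepts (mix S base v.2) (flt v.2) with hT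
  have h1 : T.card = ∑ f : E → Fin D, (T.filter fun w => w.2 = f).card :=
    Finset.card_eq_sum_card_fiberwise (fun w _ => Finset.mem_coe.mpr (Finset.mem_univ _))
  have h2 : ∀ f : E → Fin D, ((T.filter fun w => w.2 = f).card : ℝ) ≤
      1 / 4 * (Fintype.card R : ℝ) := by
    intro f
    have h4 := h f
    unfold acceptance at h4
    rw [div_le_iff₀ (by rw [Nat.card_eq_fintype_card]; exact hR),
      Nat.card_eq_fintype_card (α := R)] at h4
    refine le_trans ?_ h4
    rw [Nat.card_eq_fintype_card, Fintype.card_subtype]
    have h5 : (T.filter fun w => w.2 = f).card ≤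
        (univ.filter fun ρ : R => (C ρ).Accepts (mix S base f) ∅).card := by
      refine Finset.card_le_card_of_injOn (fun w => w.1) ?_ ?_
      · intro w hw
        simp only [hT, Finset.coe_filter, Finset.mem_filter, Finset.mem_univ, true_and,
          Set.mem_setOf_eq] at hw ⊢
        rw [← hw.2]
        exact accepts_mono _ (lit_empty _ _) hw.1
      · intro w hw w' hw' hww
        simp only [Finset.coe_filter, Set.mem_setOf_eq] at hw hw'
        exact Prod.ext hww (hw.2.trans hw'.2.symm)
    exact_mod_cast h5
  have h3 : (T.card : ℝ) ≤ ∑ f : E → Fin D, 1 / 4 * (Fintype.card R : ℝ) := by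
    rw [h1]
    push_cast
    exact Finset.sum_le_sum fun f _ => h2 f
  refine h3.trans (le_of_eq ?_)
  rw [Finset.sum_const, Finset.card_univ, nsmul_eq_mul, Fintype.card_prod]
  push_cast
  ring

open Classical in
/-- the number of the functions without zeros in `B` -/
lemma card_avoid {D : ℕ} (hD : 0 < D) (B : Finset E) :
    ((univ.filter fun f : E → Fin D => ∀ e ∈ B, (f e : ℕ) ≠ 0).card : ℝ) =
      (1 - 1 / (D : ℝ)) ^ B.card * (D : ℝ) ^ Fintype.card E := by
  have hDR : (0 : ℝ) < D := by exact_mod_cast hD
  have h1 : (univ.filter fun f : E → Fin D => ∀ e ∈ B, (f e : ℕ) ≠ 0) =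
      Fintype.piFinset fun e => if e ∈ B then (univ.filter fun x : Fin D => (x : ℕ) ≠ 0)
        else univ := by
    ext f
    rw [Finset.mem_filter, Fintype.mem_piFinset]
    constructor
    · rintro ⟨_, h⟩ e
      by_cases he : e ∈ B
      · rw [if_pos he, Finset.mem_filter]
        exact ⟨Finset.mem_univ _, h e he⟩
      · rw [if_neg he]
        exact Finset.mem_univ _
    · intro h
      refine ⟨Finset.mem_univ _, fun e he => ?_⟩
      have h2 := h e
      rw [if_pos he, Finset.mem_filter] at h2
      exact h2.2
  have h2 : ((univ.filter fun x : Fin D => (x : ℕ) ≠ 0).card : ℝ) = (D : ℝ) - 1 := by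
    have h3 : (univ.filter fun x : Fin D => (x : ℕ) ≠ 0) = univ.erase ⟨0, hD⟩ := by
      ext x
      simp [Fin.ext_iff]
    rw [h3, Finset.card_erase_of_mem (Finset.mem_univ _), Finset.card_univ, Fintype.card_fin,
      Nat.cast_sub hD]
    norm_num
  rw [h1, Fintype.card_piFinset]
  push_cast
  have h3 : ∀ e : E, ((if e ∈ B then (univ.filter fun x : Fin D => (x : ℕ) ≠ 0)
      else univ).card : ℝ) = (if e ∈ B then (1 - 1 / (D : ℝ)) else 1) * D := by
    intro e
    by_cases he : e ∈ B
    · rw [if_pos he, if_pos he, h2]
      field_simp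
    · rw [if_neg he, if_neg he, Finset.card_univ, Fintype.card_fin, one_mul]
  rw [Finset.prod_congr rfl fun e _ => h3 e, Finset.prod_mul_distrib, Finset.prod_const,
    Finset.card_univ, Finset.prod_ite_mem, Finset.univ_inter, Finset.prod_const]

end Pool.Agent.V11231.VCF
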